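import Pool.Agent.helper65.SV.SpecE
import Pool.Agent.helper80.SV.Spec3

/-!
# Project sv: (MP_b5a345_ag): E1K from part P
-/

set_option autoImplicit false

namespace Pool.Agent.SV

open Module

theorem E1K (hPFN : PFN_stmt) : E1K_stmt := by
  intro k n hk hn l hl
  have hfin := hPFN k n l hk hn hl
  obtain ⟨B, hB⟩ := (hfin.image (fun d => d l)).bddAbove
  refine ⟨B + 1, fun d hd he hS => ?_⟩
  have h1 : ∀ i, 1 ≤ d i := by
    intro i
    by_cases hi : i = l
    · subst hi; omega
    · rw [hd i hi]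
  have := hB ⟨d, ⟨h1, hd, hS⟩, rfl⟩
  simp only at this
  omega

end Pool.Agent.SV
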