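import Pool.Agent.helper80.SV.Spec

/-!
# Project sv: ONE: one type of points
-/

set_option autoImplicit false

namespace Pool.Agent.SV

open MvPolynomial Module

section abstr
variable {E P J : Type} [AddCommGroup E] [Module ℂ E] [AddCommGroup P] [Module ℂ P]

theorem ONE_ker {Φ : Bool → P → E →ₗ[ℂ] (J → ℂ)} (h : ∀ x, Φ true x = 0) {a a' b : ℕ}
    (x : Fin a → P) (x' : Fin a' → P) (y : Fin b → P) : Ker Φ x y = Ker Φ x' y := by
  ext v
  rw [mem_Ker, mem_Ker]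
  simp [h]

theorem ONE_dmin {Φ : Bool → P → E →ₗ[ℂ] (J → ℂ)} (h : ∀ x, Φ true x = 0) (a b : ℕ) :
    dmin Φ a b = dmin Φ 0 b := by
  apply le_antisymm
  · obtain ⟨x, y, hxy⟩ := exists_dmin Φ 0 b
    rw [← hxy, ONE_ker h x (fun _ : Fin a => (0 : P)) y]
    exact dmin_le _ _ _
  · obtain ⟨x, y, hxy⟩ := exists_dmin Φ a b
    rw [← hxy, ONE_ker h x (fun _ : Fin 0 => (0 : P)) y]
    exact dmin_le _ _ _

theorem ONE_cc {Φ : Bool → P → E →ₗ[ℂ] (J → ℂ)} (h : ∀ x, Φ true x = 0) (a b : ℕ) :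
    cc Φ a b = cc Φ 0 b := by
  rw [cc, cc, ONE_dmin h a b, ONE_dmin h a (b + 1)]

end abstr

theorem ONE (hSQN : SQN_stmt) (hMON : MON_stmt) (hRKB : RKB_stmt) (hRKU : RKU_stmt)
    (hRKL : RKL_stmt) (hBCA : BCA_stmt) (hZER : ZER_stmt) (hDFM : DFM_stmt) (hVIS : VIS_stmt)
    (hUG : UG_stmt) (hPLY : PLY_stmt) (hHOM : HOM_stmt) : ONE_stmt := by
  intro ι κ _ _ _ _ c A d hA hd b
  set Φ := Phi1 c A d with hΦ
  set D := Dk c A d with hD
  have hD1 : 1 ≤ D := by rw [hD, Dk]; omega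
  have htrue : ∀ x, Φ true x = 0 := fun x => by rw [hΦ, Phi1]; simp
  have hlp : LinePoly Φ := hPLY.2.2 c A d
  have hup : ∀ x, finrank ℂ (LinearMap.range (Φ false x)) ≤ D := fun x =>
    (hRKU c A A d (Finset.Subset.refl A) hA x).1
  obtain ⟨hr0, _, hr2, hr3⟩ := hRKB Φ
  have hdrop : ∀ r, dmin Φ 0 r ≤ dmin Φ 0 (r + 1) + D := fun r => hr2 D hup 0 r
  have hmono : ∀ r, dmin Φ 0 (r + 1) ≤ dmin Φ 0 r := fun r => (hMON Φ hlp 0 r).2.1
  obtain ⟨x0, hx0, _⟩ := hRKL c A A d (Finset.Subset.refl A) hA hd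
  have hcc0 : cc Φ 0 0 = D := by
    have h1 := hr3 D x0 hx0
    have h2 := hdrop 0
    rw [cc]
    simp only [zero_add] at h2 ⊢
    omega
  -- the visible elements
  let V : ↥(Sec c A d) → Prop := fun f => ∃ w : ι → ℂ, eval (cut A w) (f : MvPolynomial ι ℂ) ≠ 0
  have hV : ∀ f : ↥(Sec c A d), ¬ V f → f = 0 := by
    intro f hf
    apply Subtype.ext
    apply MvPolynomial.funext
    intro w
    by_contra hne
    refine hf ⟨w, ?_⟩
    rw [(hHOM c A d f f.2).2.2.2.2 w]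
    simpa using hne
  have hbot : ∀ (r : ℕ) (y : Fin r → ι → ℂ) (x : Fin 0 → ι → ℂ),
      finrank ℂ (Ker Φ x y) = dmin Φ 0 r → (∀ f ∈ Ker Φ x y, ¬ V f) → dmin Φ 0 r = 0 := by
    intro r y x hfr hf
    have h1 : Ker Φ x y = ⊥ := by
      rw [eq_bot_iff]
      intro f hfK
      rw [Submodule.mem_bot]
      exact hV f (hf f hfK)
    rw [← hfr, h1, finrank_bot]
  have hzero : ∀ r, dmin Φ 0 r = dmin Φ 0 (r + 1) → dmin Φ 0 r = 0 := by
    intro r hr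
    obtain ⟨x, y, hxy⟩ := exists_dmin Φ 0 r
    refine hbot r y x hxy (hZER Φ V ?_ 0 r x y (by rw [cc, ← hr, Nat.sub_self]) hxy)
    intro f hfV
    obtain ⟨p, hp⟩ := hVIS c A A d hd f f.2 hfV
    refine ⟨p, ?_⟩
    intro h0
    apply hp
    rw [← h0, hΦ, Phi1]
    simp
  have hstep : ∀ r, dmin Φ 0 (r + 1) - dmin Φ 0 (r + 2) = dmin Φ 0 r - dmin Φ 0 (r + 1) →
      dmin Φ 0 r - dmin Φ 0 (r + 1) = D ∨ dmin Φ 0 r = dmin Φ 0 (r + 1) := by
    intro r hr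
    by_cases hlt : dmin Φ 0 r - dmin Φ 0 (r + 1) = D
    · exact Or.inl hlt
    · right
      have h1 : cc Φ 0 r < cc Φ 0 0 := by
        rw [hcc0, cc]
        have := hdrop r
        omega
      obtain ⟨⟨Z, hZ⟩, _⟩ := hUG Φ hlp (2 * r + 1)
      let t : Fin r ↪ Fin (2 * r + 1) := Fin.castLEEmb (by omega)
      let s : Fin 0 ↪ Fin (2 * r + 1) := Fin.castLEEmb (by omega)
      have h2 := hBCA Φ V (hDFM c A A d (Finset.Subset.refl A)).2 (2 * r + 1) 0 r Z.1 Z.2 hZ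
        (by omega) (by omega) (ONE_cc htrue _ _) (by rw [cc, cc]; exact hr) h1 s t
      have h3 := hbot r (Z.2 ∘ t) (Z.1 ∘ s) (hZ 0 r s t) h2
      have h4 := hmono r
      omega
  have hfin := hSQN (fun r => dmin Φ 0 r) D hD1 hmono hdrop
    (fun r => by
      have := (hMON Φ hlp 0 r).2.2.2
      rw [cc, cc] at this
      exact this) hstep hzero b
  simp only [hr0] at hfin
  exact hfin

end Pool.Agent.SV
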