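import Pool.Agent.helper80.SV.Spec

/-!
# Project sv: (MP_b5a345_ag), part P: the family `O(1,..,1,e)` on `Y × P^1`, `Y` a product of at least three
projective spaces: only finitely many `e` are special

RULES. File `Pool/Agent/<seat>/SV/XX.lean`: `import Pool.Agent.helper65.SV.SpecE`, `set_option autoImplicit false`,
`namespace Pool.Agent.SV`, `theorem XX (hYY : YY_stmt) ... : XX_stmt` (hypotheses: the statements named under uses, or any
EARLIER statement of this file or of `Pool/Agent/helper80/SV/Spec.lean`), auxiliary lemmas prefixed `XX_`, no sorry, no double quotes.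

IDEA. The cells `c` of `Y = ∏ P^(n_i)` (monomials `∏ X_(i, c_i)`) form the group `∏ ℤ/(n_i + 1)`; a form of multidegree `(1,..,1,e)` is a
family `F c` of polynomials in `t` of degree `≤ e`. BASE points: the characters of the group at the roots of polynomials `h χ`; NEW
points: the standard coordinate points. Everything becomes diagonal, see PRD.
-/

set_option autoImplicit false
set_option linter.unusedSectionVars false

namespace Pool.Agent.SV

open Module

/-- the cells (monomials of multidegree `(1,..,1)`) of `∏ P^(n_i)` -/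
abbrev Cell {K : Type} (n : K → ℕ) : Type := ∀ i : K, ZMod (n i + 1)

section P
variable {K : Type} [Fintype K] [DecidableEq K] {n : K → ℕ}

/-- the form `∑_c X^c F_c(t)` is singular at the point `(y, t)` -/
def SingAt (F : Cell n → Polynomial ℂ) (y : ∀ i : K, ZMod (n i + 1) → ℂ) (t : ℂ) : Prop :=
  (∀ (i : K) (a : ZMod (n i + 1)), ∑ c : Cell n,
    (if c i = a then (∏ j ∈ Finset.univ.erase i, y j (c j)) * (F c).eval t else 0) = 0) ∧
  ∑ c : Cell n, (∏ j, y j (c j)) * (Polynomial.derivative (F c)).eval t = 0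

/-- the forms with `E` coefficients in `t` for each cell which are singular at all points `(y l, t l)` -/
def SolF (n : K → ℕ) (E : ℕ) {r : ℕ} (y : Fin r → ∀ i : K, ZMod (n i + 1) → ℂ) (t : Fin r → ℂ) :
    Submodule ℂ (Cell n → Polynomial ℂ) where
  carrier := {F | (∀ c, F c ∈ Polynomial.degreeLT ℂ E) ∧ ∀ l, SingAt F (y l) (t l)}
  add_mem' := by
    rintro F G ⟨hF, hF'⟩ ⟨hG, hG'⟩
    refine ⟨fun c => Submodule.add_mem _ (hF c) (hG c), fun l => ⟨fun i a => ?_, ?_⟩⟩
    · calc _ = (∑ c : Cell n, (if c i = a then (∏ j ∈ Finset.univ.erase i, y l j (c j)) * (F c).eval (t l) else 0)) +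
            ∑ c : Cell n, (if c i = a then (∏ j ∈ Finset.univ.erase i, y l j (c j)) * (G c).eval (t l) else 0) := by
            rw [← Finset.sum_add_distrib]
            refine Finset.sum_congr rfl fun c _ => ?_
            split_ifs
            · simp only [Pi.add_apply, Polynomial.eval_add]; ring
            · ring
        _ = 0 := by rw [(hF' l).1 i a, (hG' l).1 i a, add_zero]
    · calc _ = (∑ c : Cell n, (∏ j, y l j (c j)) * (Polynomial.derivative (F c)).eval (t l)) +
            ∑ c : Cell n, (∏ j, y l j (c j)) * (Polynomial.derivative (G c)).eval (t l) := by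
            rw [← Finset.sum_add_distrib]
            refine Finset.sum_congr rfl fun c _ => ?_
            simp only [Pi.add_apply, Polynomial.derivative_add, Polynomial.eval_add]; ring
        _ = 0 := by rw [(hF' l).2, (hG' l).2, add_zero]
  zero_mem' := ⟨fun c => Submodule.zero_mem _, fun l => ⟨fun i a => by simp, by simp⟩⟩
  smul_mem' := by
    rintro s F ⟨hF, hF'⟩
    refine ⟨fun c => Submodule.smul_mem _ _ (hF c), fun l => ⟨fun i a => ?_, ?_⟩⟩
    · calc _ = s * ∑ c : Cell n, (if c i = a then (∏ j ∈ Finset.univ.erase i, y l j (c j)) * (F c).eval (t l) else 0) := by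
            rw [Finset.mul_sum]
            refine Finset.sum_congr rfl fun c _ => ?_
            split_ifs
            · simp only [Pi.smul_apply, Polynomial.eval_smul, smul_eq_mul]; ring
            · ring
        _ = 0 := by rw [(hF' l).1 i a, mul_zero]
    · calc _ = s * ∑ c : Cell n, (∏ j, y l j (c j)) * (Polynomial.derivative (F c)).eval (t l) := by
            rw [Finset.mul_sum]
            refine Finset.sum_congr rfl fun c _ => ?_
            simp only [Pi.smul_apply, Polynomial.derivative_smul, Polynomial.eval_smul, smul_eq_mul]; ring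
        _ = 0 := by rw [(hF' l).2, mul_zero]

theorem mem_SolF {E r : ℕ} {y : Fin r → ∀ i : K, ZMod (n i + 1) → ℂ} {t : Fin r → ℂ}
    {F : Cell n → Polynomial ℂ} : F ∈ SolF n E y t ↔
      (∀ c, F c ∈ Polynomial.degreeLT ℂ E) ∧ ∀ l, SingAt F (y l) (t l) := Iff.rfl

/-- `exp(2πi/N)` -/
noncomputable def om (N : ℕ) : ℂ := Complex.exp (2 * Real.pi * Complex.I / N)

/-- the point `y` of the character `χ` -/
noncomputable def chy (χ : Cell n) (i : K) (a : ZMod (n i + 1)) : ℂ :=
  om (n i + 1) ^ ((χ i).val * a.val)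

/-- the pairing of the group of cells with itself -/
noncomputable def chr (χ c : Cell n) : ℂ := ∏ i, chy χ i (c i)

/-- the standard coordinate point of the cell `c` -/
def ePt (c : Cell n) (i : K) (a : ZMod (n i + 1)) : ℂ := if a = c i then 1 else 0

/-- Fourier transform -/
noncomputable def hatF (F : Cell n → Polynomial ℂ) (χ : Cell n) : Polynomial ℂ :=
  ∑ c, Polynomial.C (chr χ c) * F c

/-- `h_χ² ∏_(χ' adjacent to χ) h_χ'` -/
noncomputable def sfun (h : Cell n → Polynomial ℂ) (χ : Cell n) : Polynomial ℂ :=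
  h χ ^ 2 * ∏ χ' ∈ Finset.univ.filter (fun χ' => hammingDist χ χ' = 1), h χ'

/-- the eigenvalue of `2 + A` (`A` = adjacency of the Hamming graph) for `γ` -/
def lamE (γ : Cell n) : ℤ :=
  2 - hammingNorm γ + ∑ i ∈ Finset.univ.filter (fun i => γ i = 0), (n i : ℤ)

/-- the weight at the cell `x` of the new points `(c l, γ l)`: the star of `c l` and the cell `c l - γ l` -/
def wt {r : ℕ} (c γ : Fin r → Cell n) (x : Cell n) : ℕ :=
  (Finset.univ.filter fun l => hammingDist (c l) x ≤ 1).card +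
    (Finset.univ.filter fun l => c l - γ l = x).card

/-- the conditions on `G` from the new points (see PRD) -/
def TwG (n : K → ℕ) (E : ℕ) {r : ℕ} (c γ : Fin r → Cell n) (t : Fin r → ℂ) (ε : ℂ) :
    Submodule ℂ (Cell n → Polynomial ℂ) where
  carrier := {G | (∀ x, G x ∈ Polynomial.degreeLT ℂ E) ∧ ∀ l,
    (∀ x, hammingDist (c l) x ≤ 1 → (G x).eval (t l) = 0) ∧
    (γ l = 0 → (Polynomial.derivative (G (c l))).eval (t l) = 0) ∧
    (γ l ≠ 0 → ε * (Polynomial.derivative (G (c l))).eval (t l) + (G (c l - γ l)).eval (t l) = 0)}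
  add_mem' := by
    rintro F G ⟨hF, hF'⟩ ⟨hG, hG'⟩
    refine ⟨fun c => Submodule.add_mem _ (hF c) (hG c), fun l => ⟨fun x hx => ?_, fun h => ?_, fun h => ?_⟩⟩
    · simp [(hF' l).1 x hx, (hG' l).1 x hx]
    · simp [(hF' l).2.1 h, (hG' l).2.1 h]
    · have h1 := (hF' l).2.2 h
      have h2 := (hG' l).2.2 h
      simp only [Pi.add_apply, Polynomial.derivative_add, Polynomial.eval_add]
      linear_combination h1 + h2
  zero_mem' := ⟨fun c => Submodule.zero_mem _, fun l => ⟨fun x _ => by simp, fun _ => by simp, fun _ => by simp⟩⟩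
  smul_mem' := by
    rintro s F ⟨hF, hF'⟩
    refine ⟨fun c => Submodule.smul_mem _ _ (hF c), fun l => ⟨fun x hx => ?_, fun h => ?_, fun h => ?_⟩⟩
    · simp [(hF' l).1 x hx]
    · simp [(hF' l).2.1 h]
    · have h1 := (hF' l).2.2 h
      simp only [Pi.smul_apply, Polynomial.derivative_smul, Polynomial.eval_smul, smul_eq_mul]
      linear_combination s * h1

theorem mem_TwG {E r : ℕ} {c γ : Fin r → Cell n} {t : Fin r → ℂ} {ε : ℂ}
    {G : Cell n → Polynomial ℂ} : G ∈ TwG n E c γ t ε ↔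
      (∀ x, G x ∈ Polynomial.degreeLT ℂ E) ∧ ∀ l,
      (∀ x, hammingDist (c l) x ≤ 1 → (G x).eval (t l) = 0) ∧
      (γ l = 0 → (Polynomial.derivative (G (c l))).eval (t l) = 0) ∧
      (γ l ≠ 0 → ε * (Polynomial.derivative (G (c l))).eval (t l) + (G (c l - γ l)).eval (t l) = 0) := Iff.rfl

end P

/-! ## The statements -/

/-- PBR (medium; uses: EUL). The bridge: `K = {i // i ≠ j}`. A polynomial `f` of multidegree `d` (`d i = 1` for `i ≠ j`) is a family `F c` of polynomials in
`t = X_(j,1)` (put `X_(j,0) = 1`): `F c = ∑_b (coefficient in f of ∏_(i≠j) X_(i, c i) * X_(j,0)^(d j - b) X_(j,1)^b) t^b`, of degree `≤ d j`.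
PROOF. `f ↦ F` is linear and injective on `Sec` (the monomials of `Mon` correspond to the pairs `(c, b)`, `b ≤ d j`). For the point `x ⟨i, a⟩ = y l i a` (`i ≠ j`), `x ⟨j, 0⟩ = 1`,
`x ⟨j, 1⟩ = t l` (`n j = 1`: use `Fin.cases` or `if a = 0`): `∂f/∂X_(i,a)(x) = ∑_(c : c i = a) ∏_(i' ≠ i) y i' (c i') F c (t)` and `∂f/∂X_(j,1)(x) = ∑_c ∏ y i (c i) (F c)'(t)`: so the image of
`Sng` is in `SolF` (on monomials, then linearity; or `f = ∑_c X^c * (..)`). -/
def PBR_stmt : Prop :=
  ∀ (k : ℕ) (n d : Fin k → ℕ) (j : Fin k), n j = 1 → (∀ i, i ≠ j → d i = 1) → ∀ (r : ℕ)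
    (y : Fin r → ∀ i : {i : Fin k // i ≠ j}, ZMod (n i + 1) → ℂ) (t : Fin r → ℂ),
    ∃ x : Fin r → Var n → ℂ, finrank ℂ ↥(Sng (Sigma.fst : Var n → Fin k) d x) ≤
      finrank ℂ ↥(SolF (fun i : {i : Fin k // i ≠ j} => n i) (d j + 1) y t)

/-- PCH (medium). Characters. PROOF. `om N` is a primitive `N`-th root of unity (`Complex.isPrimitiveRoot_exp`), `om N ^ (a * b)` depends only on `a, b` modulo `N`;
`ZMod.val_add`; sum over a product of finite types: `Finset.prod_univ_sum` / `Fintype.piFinset`; geometric sum (`IsPrimitiveRoot.geom_sum_eq_zero` for the powers `om N ^ a`, `a ≠ 0`). -/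
def PCH_stmt : Prop :=
  ∀ (K : Type) [Fintype K] [DecidableEq K] (n : K → ℕ),
    (∀ χ c c' : Cell n, chr χ (c + c') = chr χ c * chr χ c') ∧ (∀ χ c : Cell n, chr χ c = chr c χ) ∧
    (∀ χ c : Cell n, chr χ c ≠ 0) ∧ (∀ χ : Cell n, chr χ 0 = 1) ∧
    (∀ c : Cell n, ∑ χ : Cell n, chr χ c = if c = 0 then (Fintype.card (Cell n) : ℂ) else 0) ∧
    (∀ (F : Cell n → Polynomial ℂ) (c : Cell n), Polynomial.C (Fintype.card (Cell n) : ℂ) * F c =
      ∑ χ, Polynomial.C (chr χ (-c)) * hatF F χ) ∧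
    (∀ (i : K) (a : ZMod (n i + 1)), ∑ b : ZMod (n i + 1), om (n i + 1) ^ (a.val * b.val) =
      if a = 0 then ((n i + 1 : ℕ) : ℂ) else 0)

/-- PEV (medium; uses: PCH). The sum over the neighbours. PROOF. The neighbours of `χ` are the `Function.update χ i b`, `b ≠ χ i`: bijection with `Σ i, {b // b ≠ χ i}`;
`chr (update χ i b) γ = chr χ γ * om^((b - χ i).val * (γ i).val)` (additivity in the first variable by symmetry, or directly on the factor `i`), and `∑_(b ≠ χ i) = (∑_b) - 1 = (n i + 1)[γ i = 0] - 1`. -/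
def PEV_stmt : Prop :=
  ∀ (K : Type) [Fintype K] [DecidableEq K] (n : K → ℕ) (χ γ : Cell n),
    ∑ χ' ∈ Finset.univ.filter (fun χ' => hammingDist χ χ' = 1), chr χ' γ = ((lamE γ - 2 : ℤ) : ℂ) * chr χ γ

/-- PNB (short). The number of cells at distance one and at distance at most one; the sum of the weights.
PROOF. As in PEV (or PEV with `γ = 0`). `hammingDist x y = 0 ↔ x = y`. `∑_x wt`: exchange the sums. -/
def PNB_stmt : Prop :=
  ∀ (K : Type) [Fintype K] [DecidableEq K] (n : K → ℕ),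
    (∀ x : Cell n, (Finset.univ.filter (fun y : Cell n => hammingDist x y = 1)).card = ∑ i, n i) ∧
    (∀ x : Cell n, (Finset.univ.filter (fun y : Cell n => hammingDist x y ≤ 1)).card = ∑ i, n i + 1) ∧
    (∀ (r : ℕ) (c γ : Fin r → Cell n), ∑ x, wt c γ x = r * (∑ i, n i + 2)) ∧
    Fintype.card (Cell n) = ∏ i, (n i + 1)

/-- PFI (medium; uses: PCH). Singular at the point of a character, in terms of the Fourier transform.
PROOF. For `i` and `a` let `A_a = ∑_(c : c i = a) ∏_(j ≠ i) chy χ j (c j) * (F c).eval t`. For `χ' = Function.update χ i b`: `(hatF F χ').eval t = ∑_a om^(b.val * a.val) A_a`. All `A_a = 0` iff all these values are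
`0` (orthogonality, last item of PCH: `∑_b om^(b.val * (-a').val) (..) = (n i + 1) A_(a')`). `hammingDist χ χ' ≤ 1` iff `χ' = update χ i b` for some `i, b` (if `K` is empty: both sides concern only `χ' = χ`; so
assume `Nonempty K`). The second condition is `(derivative (hatF F χ)).eval t = ∑_c chr χ c * (derivative (F c)).eval t`. -/
def PFI_stmt : Prop :=
  ∀ (K : Type) [Fintype K] [DecidableEq K] [Nonempty K] (n : K → ℕ) (F : Cell n → Polynomial ℂ) (χ : Cell n) (t : ℂ),
    SingAt F (chy χ) t ↔ (∀ χ', hammingDist χ χ' ≤ 1 → (hatF F χ').eval t = 0) ∧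
      (Polynomial.derivative (hatF F χ)).eval t = 0

/-- PST (short). Singular at a standard point. PROOF. `∏_(j ≠ i) ePt c j (x j) = 1` if `x j = c j` for all `j ≠ i`, else `0`: the sum over `x` with `x i = a` has the only term `x = Function.update c i a`. -/
def PST_stmt : Prop :=
  ∀ (K : Type) [Fintype K] [DecidableEq K] [Nonempty K] (n : K → ℕ) (F : Cell n → Polynomial ℂ) (c : Cell n) (t : ℂ),
    SingAt F (ePt c) t ↔ (∀ x, hammingDist c x ≤ 1 → (F x).eval t = 0) ∧
      (Polynomial.derivative (F c)).eval t = 0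

/-- PIN (LONG). Interpolation by polynomials with distinct roots.
PROOF. `b ∉ range t`, `P = ∏ (X - t l)`. `M i` = Lagrange interpolation, `deg < r`, `M i (t l) = β i l / ((t l - b) P'(t l))`; `H i = 1 + (X - b) P (M i)`, `deg ≤ 2 r`, `H i (t l) = 1 = H i b`, `(H i)'(t l) = β i l`. `G = (X - b)^(m - 2r) P²`, of degree `m`, whose roots are
`b` and the `t l` (`m > 2r`). For `a ≠ 0` `h_a = H i + C a * G` has degree `m`, the right values and derivatives at the `t l`. For all but finitely many `a` it has `m` distinct roots and no root in a given finite set `Z`: a root `z` of `h_a` has `G z ≠ 0` (else `H i z = 1`), so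
`a = - H z / G z`: excludes finitely many `a` for `z ∈ Z`; if `z` is a double root then `W z = 0` for `W = H G' - H' G`, and `W ≠ 0` (otherwise `G ∣ H G'`, `G` and `H` have no common root, so `G ∣ G'`, impossible for degree `m ≥ 1` in characteristic zero): finitely many `z`, finitely many `a`.
Separable with `m` roots counted with multiplicity (`IsAlgClosed`, `Polynomial.splits_iff_card_roots`): `roots.toFinset.card = m` (`Multiset.toFinset_card_of_nodup`). Choose the `h i` one after the other (induction over a finset of indices), `Z` = the roots of the previous ones. -/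
def PIN_stmt : Prop :=
  ∀ (I : Type) [Fintype I] [DecidableEq I] (r m : ℕ) (t : Fin r → ℂ) (β : I → Fin r → ℂ),
    Function.Injective t → 2 * r < m → ∃ h : I → Polynomial ℂ,
      (∀ i, (h i).natDegree = m ∧ (h i).roots.toFinset.card = m) ∧
      (∀ i j, i ≠ j → Disjoint (h i).roots.toFinset (h j).roots.toFinset) ∧
      ∀ i l, (h i).eval (t l) = 1 ∧ (Polynomial.derivative (h i)).eval (t l) = β i l

/-- PBS (medium; uses: PCH, PFI, PNB). The base points. PROOF. By PFI: `hatF F χ` vanishes at the roots of `h χ'` for `χ'` at distance `≤ 1` from `χ`, and its derivative at the roots of `h χ`. Each `h χ` is `C (lead) * ∏ (X - τ)` over its `m` distinct roots; all these roots are different for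
different `χ'`; so `sfun h χ ∣ hatF F χ` (coprime factors: `Finset.prod_dvd_of_coprime`, `(X - τ)² ∣` from a double zero). Let `q χ` be the quotient; `natDegree (sfun h χ) = m * (∑ n i + 2)` (PNB), `hatF F χ ∈ degreeLT E`, so `q χ ∈ degreeLT (E - m (∑ n i + 2))`
(`q χ = 0` or degrees subtract). Inverse transform: `G c = C (1 / card) * ∑_χ C (chr χ (-c)) * q χ`; `hatF G χ = q χ` (PCH: orthogonality in the other variable, by symmetry). -/
def PBS_stmt : Prop :=
  ∀ (K : Type) [Fintype K] [DecidableEq K] [Nonempty K] (n : K → ℕ) (m E : ℕ) (h : Cell n → Polynomial ℂ), 1 ≤ m →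
    (∀ χ, (h χ).natDegree = m ∧ (h χ).roots.toFinset.card = m) →
    (∀ χ χ', χ ≠ χ' → Disjoint (h χ).roots.toFinset (h χ').roots.toFinset) →
    ∀ F : Cell n → Polynomial ℂ, (∀ c, F c ∈ Polynomial.degreeLT ℂ E) →
    (∀ χ, ∀ τ ∈ (h χ).roots, SingAt F (chy χ) τ) →
    ∃ G : Cell n → Polynomial ℂ, (∀ c, G c ∈ Polynomial.degreeLT ℂ (E - m * (∑ i, n i + 2))) ∧
      ∀ χ, hatF F χ = sfun h χ * hatF G χ

/-- PTW (medium; uses: PCH, PEV). The twist. PROOF. `s = sfun h χ`, all `h χ'(t) = 1`: `s(t) = 1`, `s'(t) = 2 (h χ)'(t) + ∑_(neighbours) (h χ')'(t) = b (2 chr χ γ + ∑ chr χ' γ) = b * lamE γ * chr χ γ` (PEV). Values of `hatF F = s * hatF G` and of its derivative at `t`; inversion (PCH):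
`card * (F c)(t) = ∑_χ chr χ (-c) (hatF F χ)(t) = ∑_χ chr χ (-c) (hatF G χ)(t) = card * (G c)(t)`, and `card * (F c)'(t) = card * (G c)'(t) + b lamE γ ∑_χ chr χ (-c + γ) (hatF G χ)(t)`, the last sum is `card * (G (c - γ))(t)`. -/
def PTW_stmt : Prop :=
  ∀ (K : Type) [Fintype K] [DecidableEq K] (n : K → ℕ) (h F G : Cell n → Polynomial ℂ) (γ : Cell n) (t b : ℂ),
    (∀ χ, (h χ).eval t = 1 ∧ (Polynomial.derivative (h χ)).eval t = b * chr χ γ) →
    (∀ χ, hatF F χ = sfun h χ * hatF G χ) →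
    (∀ c, (F c).eval t = (G c).eval t) ∧
    ∀ c, (Polynomial.derivative (F c)).eval t =
      (Polynomial.derivative (G c)).eval t + b * (lamE γ : ℂ) * (G (c - γ)).eval t

/-- PGK (medium; uses: T1). The twisted conditions for large twist. PROOF. `TwG` is (isomorphic to) the kernel of a linear map on the finite dimensional space of the `G` with all `G x ∈ degreeLT E`, with entries polynomial in `ε` (`0` for the pairs `(l, x)` with distance `> 1`, ...). By T1 it is enough that at `ε = 0`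
the dimension is `≤ ∑ (E - wt x)`. At `ε = 0` the conditions concern the single `G x`: `G x` vanishes at `t l` if `hammingDist (c l) x ≤ 1` or `c l - γ l = x` with `γ l ≠ 0` (then the distance of `c l` and `x` is `≥ 2`), and has a double zero at `t l` if `c l = x`, `γ l = 0`: altogether
`wt x` zeros with multiplicity, at distinct points, so `G x` is divisible by a polynomial of degree `wt x` and the space of these `G x` in `degreeLT E` has dimension `≤ E - wt x`. -/
def PGK_stmt : Prop :=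
  ∀ (K : Type) [Fintype K] [DecidableEq K] (n : K → ℕ) (E r : ℕ) (c γ : Fin r → Cell n) (t : Fin r → ℂ),
    Function.Injective t → (∀ l, γ l = 0 ∨ 2 ≤ hammingNorm (γ l)) →
    {ε : ℂ | ¬ finrank ℂ ↥(TwG n E c γ t ε) ≤ ∑ x, (E - wt c γ x)}.Finite

/-- PRD (medium; uses: PIN, PBS, PTW, PGK, PST). THE REDUCTION. `m * card` base points (the point `chy χ` at the `m` roots of `h χ`) and `r` new points (`ePt (c l)`, `t l`).
PROOF. `t l = l`. PGK with `E - m (∑ n i + 2)`: choose `ε ≠ 0` outside the finite set. PIN for `I = Cell n` with `β χ l = 0` if `γ l = 0`, `β χ l = (ε⁻¹ / lamE (γ l)) * chr χ (γ l)` otherwise: `h`. Enumerate the pairs (`χ`, root of `h χ`) by `Fin (m * card)`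
(`Fintype.card` of the sigma type is `m * card`; `Fintype.equivFinOfCardEq`), `Fin.append` for the new ones. Let `F ∈ SolF`: PBS gives `G`; PTW (at `t l` with `b = ε⁻¹ / lamE (γ l)`, or `b = 0`, any `γ`, if `γ l = 0`) and PST: `G ∈ TwG n (E - ..) c γ t ε` (multiply the
last condition by `ε`). `F` is the image of `G` under the linear map `Ψ G = (c ↦ C (1/card) * ∑_χ C (chr χ (-c)) * (sfun h χ * hatF G χ))` (PCH): `SolF ≤ (TwG ..).map Ψ`, so `finrank SolF ≤ finrank TwG` (all finite dimensional). -/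
def PRD_stmt : Prop :=
  ∀ (K : Type) [Fintype K] [DecidableEq K] [Nonempty K] (n : K → ℕ) (r m E : ℕ) (c γ : Fin r → Cell n),
    (∀ l, γ l = 0 ∨ (2 ≤ hammingNorm (γ l) ∧ lamE (γ l) ≠ 0)) → 2 * r < m →
    ∃ (y : Fin (m * Fintype.card (Cell n) + r) → ∀ i : K, ZMod (n i + 1) → ℂ)
      (t : Fin (m * Fintype.card (Cell n) + r) → ℂ),
      finrank ℂ ↥(SolF n E y t) ≤ ∑ x, (E - m * (∑ i, n i + 2) - wt c γ x)

/-- PSP (medium; finite abelian groups). PROOF. The functions `u` of the form of the conclusion are an additive group `𝒟`; it contains `δ_(c - γ) - δ_c` (`γ ∈ S`: `μ = ` indicator of `(c, γ)`), hence (closure induction) `δ_a - δ_c` whenever `a - c` is in the closure. Choose in every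
coset of the closure a representative `rep`; `u = ∑_x u x (δ_x - δ_(rep x))` because the sum of `u` over each coset is `0`. -/
def PSP_stmt : Prop :=
  ∀ (Γ : Type) [AddCommGroup Γ] [Fintype Γ] [DecidableEq Γ] (S : Set Γ) (u : Γ → ℤ),
    (∀ (x : Γ) (A : Finset Γ), (∀ y, y ∈ A ↔ y - x ∈ AddSubgroup.closure S) → ∑ y ∈ A, u y = 0) →
    ∃ μ : Γ → Γ → ℤ, (∀ c γ, γ ∉ S → μ c γ = 0) ∧ ∀ x, u x = ∑ γ, (μ (x + γ) γ - μ x γ)

/-- PCA (medium; uses: PNB). From integral multiplicities to lists of new points. PROOF. Let `k ≥ |M c γ|` for all `c, γ`; `M' c γ = M c γ + k ≥ 0` for `γ ∈ S`. The list contains `(c, γ)` `M' c γ` times (a list of length `r = ∑ M'`; e.g. an equivalence of `Σ (c, γ), Fin (M' c γ)` with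
`Fin r`). `r - ∑ M = k * |S| * card (Cell n)`. Adding `1` to `M c γ` for all `c` (fixed `γ`) adds `(∑ n i + 1) + 1` to the weight of every `x` (PNB; `c - γ = x` for exactly one `c`): `A = k |S| (∑ n i + 2)`. -/
def PCA_stmt : Prop :=
  ∀ (K : Type) [Fintype K] [DecidableEq K] (n : K → ℕ) (S : Set (Cell n)) (M : Cell n → Cell n → ℤ),
    (∀ c γ, γ ∉ S → M c γ = 0) →
    ∃ (r : ℕ) (c γ : Fin r → Cell n) (A : ℕ), (∀ l, γ l ∈ S) ∧
      ((Fintype.card (Cell n) : ℤ) ∣ (r : ℤ) - ∑ c, ∑ γ, M c γ) ∧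
      ∀ x, (wt c γ x : ℤ) = A + ∑ c, ∑ γ, (if hammingDist c x ≤ 1 then M c γ else 0) + ∑ γ, M (x + γ) γ

/-- the admissible shifts -/
def Adm {K : Type} [Fintype K] [DecidableEq K] (n : K → ℕ) : Set (Cell n) :=
  {γ | 2 ≤ hammingNorm γ ∧ lamE γ ≠ 0}

/-- PCG (medium). The admissible shifts generate the group. PROOF. An element with exactly two non zero coordinates is admissible (`lamE = ∑_(the others) n i > 0`, there is a third coordinate), and if `card K ≥ 5` also those with three non zero coordinates (`lamE = -1 + ∑ ≥ 1`). Let `δ i = Pi.single i 1`.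
If `2 ≤ n i`: `δ i = (2 δ i + δ j) - (δ i + δ j)` (`2 ≠ 0` in `ZMod (n i + 1)`), and `δ j = (δ i + δ j) - δ i` for `j ≠ i`. If `card K ≥ 5`: `δ i = (δ i + δ j + δ k) - (δ j + δ k)`. The `δ i` generate `∏ ZMod (n i + 1)` (`x = ∑ (x i).val • δ i`). -/
def PCG_stmt : Prop :=
  ∀ (K : Type) [Fintype K] [DecidableEq K] (n : K → ℕ), 3 ≤ Fintype.card K → (∀ i, 1 ≤ n i) →
    ((∃ i, 2 ≤ n i) ∨ 5 ≤ Fintype.card K) → AddSubgroup.closure (Adm n) = ⊤

/-- PC1 (medium; uses: PSP, PCA, PCG, PNB). Balanced configurations, general case. PROOF. Let `D = ∑ n i + 2`, `v = card (Cell n)`, `q = r₀ D / v`, `B` a set of `r₀ D % v` cells, `w x = q + [x ∈ B]`, so `∑ w = r₀ D`. Let `w₀ x = r₀ ([hammingDist 0 x ≤ 1] + [x = 0])`, `∑ w₀ = r₀ D` (PNB). PSP for `u = w - w₀`, `S = Adm n`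
(closure `⊤`, so the coset sum is the total sum `0`): `μ`. `M c γ = μ c γ` for `γ ∈ Adm`, `M c 0 = r₀ [c = 0] - ∑_γ μ c γ` (`0 ∉ Adm`), `M c γ = 0` otherwise; `S' = {0} ∪ Adm` in PCA: `∑ M = r₀`; `∑_(c,γ) [dist c x ≤ 1] M c γ = r₀ [dist 0 x ≤ 1]`,
`∑_γ M (x + γ) γ = r₀ [x = 0] - ∑_γ μ x γ + ∑_γ μ (x + γ) γ = r₀ [x = 0] + u x`: the weights are `A + w x`, so they take two consecutive values (at most). -/
def PC1_stmt : Prop :=
  ∀ (K : Type) [Fintype K] [DecidableEq K] (n : K → ℕ), 3 ≤ Fintype.card K → (∀ i, 1 ≤ n i) →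
    ((∃ i, 2 ≤ n i) ∨ 5 ≤ Fintype.card K) → ∀ r₀ : ℕ,
    ∃ (r : ℕ) (c γ : Fin r → Cell n) (q : ℕ), (∀ l, γ l = 0 ∨ (2 ≤ hammingNorm (γ l) ∧ lamE (γ l) ≠ 0)) ∧
      r % Fintype.card (Cell n) = r₀ % Fintype.card (Cell n) ∧ ∀ x, wt c γ x = q ∨ wt c γ x = q + 1

/-- PC2 (LONG; uses: PSP, PCA, PNB). Balanced configurations for `(P^1)^3` and `(P^1)^4`. PROOF. All `n i = 1`, `p = card K ∈ {3, 4}`, `V = 2^(p-1)` = number of even cells = number of odd cells (parity of `hammingNorm`). The elements of weight two are admissible and generate the subgroup of even elements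
(`S` = elements of weight two; closure of `S` = the even elements; a coset = a parity class). Let `e₁ = Pi.single i₁ 1`. `r₀ = 2 s` or `2 s + 1`: base multiplicities `s` at the cell `0` and `s` resp. `s + 1` at the cell `e₁` (`γ = 0`): weights
`w₀ x = s ([dist 0 x ≤ 1] + [x = 0]) + s' ([dist e₁ x ≤ 1] + [x = e₁])`; sums over the even and the odd cells: `(E, O) = s (2, p) + s' (p, 2)`. `q = O / V`. Then `q V ≤ E, O ≤ (q + 1) V`: for `s' = s` as `E = O`; for `s' = s + 1`: `O = s (p + 2) + 2`, `E = O + (p - 2)`; `p = 3`: `O % 4 ≤ 3`,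
`E = O + 1`; `p = 4`: `O = 6 s + 2` is even, so `O % 8 ≤ 6`, `E = O + 2`. Choose `B` with `E - q V` even and `O - q V` odd cells, `w x = q + [x ∈ B]`: `u = w - w₀` has sum `0` over both parity classes. Conclusion as in PC1. -/
def PC2_stmt : Prop :=
  ∀ (K : Type) [Fintype K] [DecidableEq K] (n : K → ℕ), (Fintype.card K = 3 ∨ Fintype.card K = 4) →
    (∀ i, n i = 1) → ∀ r₀ : ℕ,
    ∃ (r : ℕ) (c γ : Fin r → Cell n) (q : ℕ), (∀ l, γ l = 0 ∨ (2 ≤ hammingNorm (γ l) ∧ lamE (γ l) ≠ 0)) ∧
      r % Fintype.card (Cell n) = r₀ % Fintype.card (Cell n) ∧ ∀ x, wt c γ x = q ∨ wt c γ x = q + 1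

/-- PNU (medium; uses: PC1, PC2, PNB, PRD). All large `E`. PROOF. `v = card (Cell n)`, `D = ∑ n i + 2`. For every residue `ρ < v` PC1 or PC2 gives `r_ρ, c, γ, q`; let `R` be the maximum of the `r_ρ`; `E₀ = v D (2 R + 3)` or larger. For `E ≥ E₀` and `r` as in the statement: `r ≥ R + v (2 R + 1)`; `ρ = r % v`,
`r = m v + r_ρ` with `m > 2 R`. PRD: dimension `≤ ∑_x (E - m D - wt x)`. (truncated). `∑_x wt x = r_ρ D`, so `∑_x (E - m D - wt x) = v E - r D` as integers. `r = v E / D`: this is `≥ 0`, so the average of `wt` is `≤ E - m D`, and as `wt` takes only the values `q, q + 1`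
(not both values needed) all `wt x ≤ E - m D` (if some `wt x = q + 1 > E - m D` then all `wt ≥ q ≥ E - m D` and the sum would be negative): no truncation. `r = (v E + D - 1) / D`: the integer sum is `≤ 0`, so all `wt x ≥ E - m D` in the same way: all terms are `0`. -/
def PNU_stmt : Prop :=
  ∀ (K : Type) [Fintype K] [DecidableEq K] (n : K → ℕ), 3 ≤ Fintype.card K → (∀ i, 1 ≤ n i) →
    ∃ E₀ : ℕ, ∀ E, E₀ ≤ E → ∀ r : ℕ,
      (r = Fintype.card (Cell n) * E / (∑ i, n i + 2) ∨
        r = (Fintype.card (Cell n) * E + (∑ i, n i + 1)) / (∑ i, n i + 2)) →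
      ∃ (y : Fin r → ∀ i : K, ZMod (n i + 1) → ℂ) (t : Fin r → ℂ),
        finrank ℂ ↥(SolF n E y t) ≤ Fintype.card (Cell n) * E - r * (∑ i, n i + 2)

/-- PFN (medium; uses: PNU, PBR, PNB, ALR, DIM, MHS). THE THEOREM of part P. PROOF. `K = {i // i ≠ j}`, `card K = k - 1 ≥ 3`. `finrank (MultiHom n d) = ∏_(i ≠ j) (n i + 1) * (d j + 1) = card (Cell) * (d j + 1)` (DIM with `c = Sigma.fst`, `A = univ`: `multichoose (n + 1) 1 = n + 1`, `multichoose 2 e = e + 1`),
`∑_(i : Fin k) n i + 1 = ∑_(i : K) n i + 2`. PNU with `E = d j + 1 ≥ E₀` and PBR give the hypotheses of ALR. So `d j + 1 < E₀` for special `d`: finitely many (`d i = 1` for `i ≠ j`). `ALR` needs `1 ≤ d i`. -/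
def PFN_stmt : Prop :=
  ∀ (k : ℕ) (n : Fin k → ℕ) (j : Fin k), 4 ≤ k → (∀ i, 1 ≤ n i) → n j = 1 →
    {d : Fin k → ℕ | (∀ i, 1 ≤ d i) ∧ (∀ i, i ≠ j → d i = 1) ∧ Special n d}.Finite

/-- PPM (medium). Speciality is invariant under a permutation of the factors. PROOF. The bijection of the variables `Var (n ∘ σ) ≃ Var n`, `⟨i, a⟩ ↦ ⟨σ i, a⟩`, induces an algebra isomorphism (`MvPolynomial.rename`, `renameEquiv`) which maps `MultiHom (n ∘ σ) (d ∘ σ)` onto `MultiHom n d`, `DoubleAt` to `DoubleAt`,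
points to points, polynomials `F` in the coordinates of `r` points to such polynomials. So `Independent`, `General`, `Special` correspond. It is enough to prove one implication for all `σ` (apply it to `σ⁻¹`). -/
def PPM_stmt : Prop :=
  ∀ (k : ℕ) (n d : Fin k → ℕ) (σ : Equiv.Perm (Fin k)), Special (n ∘ σ) (d ∘ σ) ↔ Special n d

/-- PF2 (medium; uses: FIN, PFN, E10, PPM). FINITENESS, final form: outside `O(2,e)` on `P^m × P^1` and `O(1,1,e)` on `P^a × P^b × P^1` only finitely many special line bundles with all `d i ≥ 1` on every fixed product.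
PROOF. FIN; the first family of FIN: `k ≥ 4`: PFN for each `j`; `k = 3` excluded; `k = 2`: `O(1,e)` on `P^m × P^1` is not special (E10, PPM with the exchange for `l = 0`). -/
def PF2_stmt : Prop :=
  ∀ (k : ℕ) (n : Fin k → ℕ), 2 ≤ k → (∀ i, 1 ≤ n i) →
    {d : Fin k → ℕ | (∀ i, 1 ≤ d i) ∧ Special n d ∧
      ¬ (k = 3 ∧ ∃ l, n l = 1 ∧ ∀ i, i ≠ l → d i = 1) ∧
      ¬ (k = 2 ∧ ∃ l, n l = 1 ∧ ∀ i, i ≠ l → d i = 2)}.Finite

/-- The two infinite families of special line bundles on a fixed product of projective spaces: `O(2,e)`, `e` even, on `P^m × P^1`; and `O(1,1,e)` on `P^a × P^b × P^1` for those `e` for which there is an `r`, divisible neither by `a + 1` nor by `b + 1`, with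
`⌊r/(a+1)⌋ + ⌊r/(b+1)⌋ = e` (in any order of the factors). -/
def InFamilies {k : ℕ} (n d : Fin k → ℕ) : Prop :=
  (k = 2 ∧ ∃ l, n l = 1 ∧ Even (d l) ∧ ∀ i, i ≠ l → d i = 2) ∨
  (k = 3 ∧ ∃ l, n l = 1 ∧ (∀ i, i ≠ l → d i = 1) ∧ ∃ r : ℕ, (∀ i, i ≠ l → ¬ (n i + 1) ∣ r) ∧
    ∑ i ∈ Finset.univ.erase l, r / (n i + 1) = d l)

/-- PMN (medium; uses: PF2, E20, E11, PPM). THE MAIN THEOREM: classification up to finitely many line bundles on every fixed product. PROOF. For `d` outside the two families of shapes of PF2, `InFamilies` is false and `Special` is false up to finitely many `d` (PF2). For the shapes `k = 2`, `d i = 2` (`i ≠ l`), `n l = 1`: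
E20 and PPM (exchange if `l = 0`): `Special n d ↔ Even (d l)`; if the shape holds for both `l` then `n = (1,1)`, `d = (2,2)`, even. For `k = 3`: E11 and PPM (a permutation which moves `l` to the last place): `Special n d ↔` the criterion for `l` (hence the criterion does not depend on `l`). -/
def PMN_stmt : Prop :=
  ∀ (k : ℕ) (n : Fin k → ℕ), 2 ≤ k → (∀ i, 1 ≤ n i) →
    {d : Fin k → ℕ | (∀ i, 1 ≤ d i) ∧ ¬ (Special n d ↔ InFamilies n d)}.Finite

end Pool.Agent.SV
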